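import Pool.Agent.H252.EL.Iface
import Pool.Graph.R_pool_sql_team_seeded_620a6dc7.H107_ZS.TDOM

/-!
# Rordam's lemma and elementary facts on Cuntz comparison
-/

set_option autoImplicit false

noncomputable section

namespace Pool.Agent.H282.ELRD

open Filter Topology
open Pool.Agent.H252.EL

/-- sequences and `ε` -/
theorem cle_of_cz {B : Type} [CStarAlgebra B] {a b : B} (h : Pool.Agent.H327R4.Pure.Cz a b) :
    CLE a b := by
  obtain ⟨v, hv⟩ := h
  intro ε hε
  obtain ⟨n, hn⟩ := Metric.tendsto_atTop.1 hv ε hε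
  refine ⟨v n, ?_⟩
  have h1 := hn n le_rfl
  rwa [dist_eq_norm] at h1

theorem rordam (B : Type) [CStarAlgebra B] (y z : B) (η : ℝ) (hη : 0 < η)
    (h : ‖star y * y - star z * z‖ < η) : CLE (cut η (star y * y)) (star z * z) := by
  letI := CStarAlgebra.spectralOrder B
  haveI := CStarAlgebra.spectralOrderedRing B
  have ha : 0 ≤ star y * y := star_mul_self_nonneg y
  have hb : 0 ≤ star z * z := star_mul_self_nonneg z
  have hsa : IsSelfAdjoint (star y * y - star z * z) := ha.isSelfAdjoint.sub hb.isSelfAdjoint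
  have h1 : star y * y ≤ algebraMap ℝ B η + star z * z := by
    have h2 := hsa.le_algebraMap_norm_self
    have h3 : algebraMap ℝ B ‖star y * y - star z * z‖ ≤ algebraMap ℝ B η := by
      rw [← sub_nonneg, ← map_sub]
      exact algebraMap_nonneg B (sub_nonneg.2 h.le)
    exact sub_le_iff_le_add.1 (h2.trans h3)
  have h4 := Pool.Agent.H107ZS.t_DOM B (star y * y) (star z * z) η ha hb hη.le h1
  rw [Pool.Agent.H107ZS.TDOM.cut_eq _ hη.le] at h4
  exact cle_of_cz h4

theorem trans' (B : Type) [CStarAlgebra B] (a b c : B) (h1 : CLE a b) (h2 : CLE b c) :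
    CLE a c := by
  intro ε hε
  obtain ⟨v, hv⟩ := h1 (ε / 2) (by positivity)
  obtain ⟨w, hw⟩ := h2 (ε / (2 * (‖v‖ * ‖v‖ + 1))) (by positivity)
  refine ⟨v * w, ?_⟩
  have e1 : v * w * c * star (v * w) - a =
      v * (w * c * star w - b) * star v + (v * b * star v - a) := by
    rw [star_mul]
    noncomm_ring
  rw [e1]
  have h3 : ‖v * (w * c * star w - b) * star v‖ ≤ ‖v‖ * ‖w * c * star w - b‖ * ‖v‖ := by
    refine (norm_mul_le _ _).trans ?_
    rw [norm_star]
    exact mul_le_mul_of_nonneg_right (norm_mul_le _ _) (norm_nonneg _)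
  have h4 : ‖v‖ * ‖w * c * star w - b‖ * ‖v‖ ≤ ε / 2 := by
    have h5 : ‖v‖ * ‖w * c * star w - b‖ * ‖v‖ = (‖v‖ * ‖v‖) * ‖w * c * star w - b‖ := by ring
    rw [h5]
    have h6 : (‖v‖ * ‖v‖) * ‖w * c * star w - b‖ ≤
        (‖v‖ * ‖v‖ + 1) * (ε / (2 * (‖v‖ * ‖v‖ + 1))) :=
      mul_le_mul (by linarith) hw.le (norm_nonneg _) (by positivity)
    have h7 : (‖v‖ * ‖v‖ + 1) * (ε / (2 * (‖v‖ * ‖v‖ + 1))) = ε / 2 := by
      have : (‖v‖ * ‖v‖ + 1) ≠ 0 := by positivity
      field_simp
    linarith
  calc _ ≤ ‖v * (w * c * star w - b) * star v‖ + ‖v * b * star v - a‖ := norm_add_le _ _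
    _ < ε := by linarith

theorem partialIso (B : Type) [CStarAlgebra B] (u : B) (hu : IsStarProjection (star u * u)) :
    CLE (u * star u) (star u * u) := by
  have h1 : u * (star u * u) = u := by
    have h2 : star (u * (star u * u) - u) * (u * (star u * u) - u) = 0 := by
      have h3 : (star u * u) * (star u * u) = star u * u := hu.isIdempotentElem
      have e1 : star (u * (star u * u) - u) * (u * (star u * u) - u) =
          (star u * u) * (star u * u) * (star u * u) - (star u * u) * (star u * u)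
            - ((star u * u) * (star u * u) - star u * u) := by
        rw [star_sub, star_mul, star_mul, star_star]
        noncomm_ring
      rw [e1, h3, h3]
      simp
    exact sub_eq_zero.1 (CStarRing.star_mul_self_eq_zero_iff _ |>.1 h2)
  intro ε hε
  refine ⟨u, ?_⟩
  have e2 : u * (star u * u) * star u - u * star u = 0 := by
    rw [h1, sub_self]
  rw [e2, norm_zero]
  exact hε

theorem s_RD : S_RD := by
  intro hN B _
  refine ⟨fun y z η hη h => rordam B y z η hη h, fun a b c h1 h2 => trans' B a b c h1 h2,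
    fun w b ε hε => ⟨w, by rw [sub_self, norm_zero]; exact hε⟩, ?_, fun u hu => partialIso B u hu⟩
  intro p y hp hc
  obtain ⟨v, hv⟩ := hc 1 one_pos
  exact hN B y v p p hp hp hp.isIdempotentElem hv

end Pool.Agent.H282.ELRD
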