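import Pool.Agent.H252.UQ.Iface

/-!
# UQ-PTS: disjoint bumps near finitely many given points of the cube
-/

set_option autoImplicit false

open Filter Topology

namespace Pool.Agent.H282.UQ

open Pool.Agent.H923R2.FP Pool.Agent.H923R2.FZ Pool.Agent.N300.UN

/-- an injective choice of points in infinite sets -/
lemma exists_inj {ι X : Type} [Fintype ι] (S : ι → Set X) (hS : ∀ i, (S i).Infinite) :
    ∃ z : ι → X, (∀ i, z i ∈ S i) ∧ Function.Injective z := by
  classical
  have key : ∀ s : Finset ι, ∃ z : ι → X, (∀ i, z i ∈ S i) ∧ Set.InjOn z s := by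
    intro s
    induction s using Finset.induction_on with
    | empty =>
      refine ⟨fun i => (hS i).nonempty.some, fun i => (hS i).nonempty.some_mem, ?_⟩
      simp
    | insert a s ha ih =>
      obtain ⟨z, hz, hinj⟩ := ih
      obtain ⟨p, hp, hps⟩ := (hS a).exists_notMem_finset (s.image z)
      refine ⟨Function.update z a p, ?_, ?_⟩
      · intro i
        by_cases hi : i = a
        · subst hi; rw [Function.update_self]; exact hp
        · rw [Function.update_of_ne hi]; exact hz i
      · have hs : ∀ i ∈ s, Function.update z a p i = z i := by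
          intro i hi
          have hia : i ≠ a := by
            rintro rfl
            exact ha hi
          exact Function.update_of_ne hia _ _
        intro i hi j hj hij
        rw [Finset.coe_insert, Set.mem_insert_iff, Finset.mem_coe] at hi hj
        rcases hi with rfl | hi <;> rcases hj with rfl | hj
        · rfl
        · rw [Function.update_self, hs j hj] at hij
          exact absurd (Finset.mem_image.2 ⟨j, hj, hij.symm⟩) hps
        · rw [Function.update_self, hs i hi] at hij
          exact absurd (Finset.mem_image.2 ⟨i, hi, hij⟩) hps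
        · rw [hs i hi, hs j hj] at hij
          exact hinj hi hj hij
  obtain ⟨z, hz, hinj⟩ := key Finset.univ
  exact ⟨z, hz, fun i j h => hinj (Finset.mem_coe.2 (Finset.mem_univ i))
    (Finset.mem_coe.2 (Finset.mem_univ j)) h⟩

theorem s_PTS : Pool.Agent.H252.UQ.S_PTS := by
  intro n hn ι _ y ω hω
  have : Nonempty (Fin n) := ⟨⟨0, by omega⟩⟩
  have hinf : ∀ i, (Metric.ball (y i) (ω / 2)).Infinite := fun i =>
    infinite_of_mem_nhds (y i) (Metric.ball_mem_nhds _ (by positivity))
  obtain ⟨z, hz, hinj⟩ := exists_inj _ hinf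
  obtain ⟨d, hd0, hdω, hd⟩ : ∃ d : ℝ, 0 < d ∧ d < ω / 2 ∧
      ∀ i j, i ≠ j → 2 * d < dist (z i) (z j) := by
    have h1 : ∀ᶠ d in 𝓝[>] (0 : ℝ), ∀ i j, i ≠ j → 2 * d < dist (z i) (z j) := by
      rw [eventually_all]
      intro i
      rw [eventually_all]
      intro j
      by_cases hij : i = j
      · exact Eventually.of_forall fun d h => absurd hij h
      · have h2 : 0 < dist (z i) (z j) := dist_pos.2 fun h => hij (hinj h)
        have h3 : ∀ᶠ d in 𝓝[>] (0 : ℝ), d < dist (z i) (z j) / 2 :=
          nhdsWithin_le_nhds (Iio_mem_nhds (by positivity))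
        filter_upwards [h3] with d hd _
        linarith
    have h4 : ∀ᶠ d in 𝓝[>] (0 : ℝ), d < ω / 2 :=
      nhdsWithin_le_nhds (Iio_mem_nhds (by positivity))
    have h5 : ∀ᶠ d in 𝓝[>] (0 : ℝ), 0 < d := self_mem_nhdsWithin
    obtain ⟨d, h6, h7, h8⟩ := (h5.and (h4.and h1)).exists
    exact ⟨d, h6, h7, h8⟩
  have hlt : ∀ i x, max 0 (1 - dist x (z i) / d) ≠ 0 → dist x (z i) < d := by
    intro i x h
    by_contra hcon
    rw [not_lt] at hcon
    apply h
    have : 1 ≤ dist x (z i) / d := (one_le_div hd0).2 hcon
    exact max_eq_left (by linarith)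
  refine ⟨fun i => ⟨fun x => max 0 (1 - dist x (z i) / d), by fun_prop⟩, ?_, ?_, ?_, ?_⟩
  · intro i x
    change 0 ≤ max 0 (1 - dist x (z i) / d) ∧ max 0 (1 - dist x (z i) / d) ≤ 1
    refine ⟨le_max_left _ _, max_le zero_le_one ?_⟩
    have : 0 ≤ dist x (z i) / d := by positivity
    linarith
  · intro i h
    have h1 := DFunLike.congr_fun h (z i)
    change max 0 (1 - dist (z i) (z i) / d) = 0 at h1
    rw [dist_self, zero_div, sub_zero, max_eq_right zero_le_one] at h1
    exact one_ne_zero h1
  · intro i j hij x
    change max 0 (1 - dist x (z i) / d) = 0 ∨ max 0 (1 - dist x (z j) / d) = 0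
    by_contra hcon
    push Not at hcon
    have h1 := hlt i x hcon.1
    have h2 := hlt j x hcon.2
    have h3 := hd i j hij
    have h4 := dist_triangle_left (z i) (z j) x
    linarith
  · intro i x h
    have h1 := hlt i x h
    have h2 := Metric.mem_ball.1 (hz i)
    have h3 := dist_triangle x (z i) (y i)
    linarith

end Pool.Agent.H282.UQ
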