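import Pool.Agent.H546.APStm

set_option autoImplicit false

/-!
# Reduction of binary quadratic forms
-/

namespace Pool.Agent.H282.AP10

theorem reduce (N : ℤ) (hN : 0 < N) : ∀ n : ℕ, ∀ a b c x y : ℤ, a.toNat ≤ n → 0 < a →
    a * c - b ^ 2 = N → ∃ a' b' c' r s : ℤ, a' * c' - b' ^ 2 = N ∧ 0 < a' ∧ 2 * |b'| ≤ a' ∧
      a' ≤ c' ∧ a * x ^ 2 + 2 * b * x * y + c * y ^ 2 =
        a' * r ^ 2 + 2 * b' * r * s + c' * s ^ 2 := by
  intro n
  induction n with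
  | zero =>
    intro a b c x y h1 h2 _
    exfalso
    omega
  | succ n ih =>
    intro a b c x y h1 h2 h3
    obtain ⟨m, hm⟩ : ∃ m : ℤ, m = (2 * b + a) / (2 * a) := ⟨_, rfl⟩
    have e1 := Int.emod_add_mul_ediv (2 * b + a) (2 * a)
    have e2 := Int.emod_nonneg (2 * b + a) (by omega : (2 * a) ≠ 0)
    have e3 := Int.emod_lt_of_pos (2 * b + a) (by omega : 0 < 2 * a)
    rw [← hm] at e1
    obtain ⟨b1, hb1⟩ : ∃ b1 : ℤ, b1 = b - m * a := ⟨_, rfl⟩
    obtain ⟨c1, hc1⟩ : ∃ c1 : ℤ, c1 = a * m ^ 2 - 2 * b * m + c := ⟨_, rfl⟩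
    have hb2 : 2 * |b1| ≤ a := by
      have e4 : 2 * b1 = (2 * b + a) % (2 * a) - a := by
        rw [hb1]; linear_combination -e1
      have e5 : |2 * b1| ≤ a := by
        rw [abs_le]; constructor <;> linarith
      rwa [abs_mul, abs_of_pos (by norm_num : (0 : ℤ) < 2)] at e5
    have h4 : a * c1 - b1 ^ 2 = N := by
      rw [← h3, hb1, hc1]; ring
    by_cases h5 : a ≤ c1
    · exact ⟨a, b1, c1, x + m * y, y, h4, h2, hb2, h5, by rw [hb1, hc1]; ring⟩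
    · have h6 : 0 < c1 := by
        by_contra h7
        have h8 : a * c1 ≤ 0 := mul_nonpos_of_nonneg_of_nonpos h2.le (not_lt.1 h7)
        nlinarith [sq_nonneg b1]
      obtain ⟨a', b', c', r, s, k1, k2, k3, k4, k5⟩ := ih c1 b1 a y (x + m * y) (by omega) h6
        (by rw [← h4]; ring)
      refine ⟨a', b', c', r, s, k1, k2, k3, k4, ?_⟩
      rw [← k5, hb1, hc1]
      ring

theorem h_S_form : Pool.Agent.H546.AP.S_form := by
  intro N p hN hp t ht
  obtain ⟨c, hc⟩ := ht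
  obtain ⟨a', b', c', r, s, k1, k2, k3, k4, k5⟩ := reduce (N : ℤ) (by exact_mod_cast hN)
    (p : ℤ).toNat p t c 1 0 le_rfl (by exact_mod_cast hp) (by rw [← hc]; ring)
  refine ⟨a', b', c', r, s, k1, k2, k3, k4, ?_⟩
  rw [← k5]
  ring

end Pool.Agent.H282.AP10
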