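import Pool.Agent.H646.CR.Stm

set_option autoImplicit false

/-! S_topo of the project CR (helper646). -/

namespace Pool.Agent.H282.CRtopo

open Set Topology TopologicalSpace Filter Pool.Agent.H646.CR

lemma not_open_singleton (t : P) : ¬ IsOpen ({t} : Set P) := by
  intro h
  have ht : Tendsto (fun n : ℕ => Function.update t n (!t n)) atTop (𝓝 t) := by
    rw [tendsto_pi_nhds]
    intro k
    refine tendsto_const_nhds.congr' ?_
    filter_upwards [eventually_gt_atTop k] with n hn
    rw [Function.update_of_ne (Nat.ne_of_lt hn)]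
  have h1 := ht.eventually (h.mem_nhds (mem_singleton t))
  obtain ⟨n, hn⟩ := h1.exists
  have h2 := congrFun (mem_singleton_iff.1 hn) n
  rw [Function.update_self] at h2
  cases h3 : t n <;> rw [h3] at h2 <;> simp at h2

theorem holds : S_topo := by
  intro ι _ R hc hu
  set N : Set P := {t | ∃ i, (interior {s | R i t s}).Nonempty} with hN
  have hNc : N.Countable := by
    have hsub : N ⊆ ⋃ i : ι, ⋃ O ∈ {O | O ∈ countableBasis P ∧ O.Nonempty}, {t | O ⊆ {s | R i t s}} := by
      rintro t ⟨i, s, hs⟩
      obtain ⟨O, hO, hsO, hOs⟩ := (isBasis_countableBasis P).mem_nhds_iff.1 (isOpen_interior.mem_nhds hs)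
      rw [mem_iUnion]
      refine ⟨i, ?_⟩
      rw [mem_iUnion₂]
      exact ⟨O, ⟨hO, ⟨s, hsO⟩⟩, hOs.trans interior_subset⟩
    refine Set.Countable.mono hsub ?_
    refine countable_iUnion fun i => ?_
    refine Set.Countable.biUnion ((countable_countableBasis P).mono fun O hO => hO.1) ?_
    rintro O ⟨-, ⟨s, hs⟩⟩
    refine Set.Subsingleton.countable ?_
    intro t ht t' ht'
    exact hu i s t t' (ht hs) (ht' hs)
  have hNd : Dense Nᶜ := by
    have e : Nᶜ = ⋂ t ∈ N, ({t} : Set P)ᶜ := by
      ext s
      simp only [mem_compl_iff, mem_iInter, mem_singleton_iff]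
      constructor
      · intro h t ht hst
        rw [hst] at h
        exact h ht
      · intro h hs
        exact h s hs rfl
    rw [e]
    refine dense_biInter_of_isOpen (fun t _ => isClosed_singleton.isOpen_compl) hNc fun t _ => ?_
    exact dense_compl_singleton_iff_not_open.2 (not_open_singleton t)
  obtain ⟨A, hA1, hA2, hA3⟩ := hNd.exists_countable_dense_subset
  have hAne : A.Nonempty := hA3.nonempty
  obtain ⟨D, hD⟩ := hA2.exists_eq_range hAne
  refine ⟨D, ?_, ⋂ p : ι × ℕ, {s | R p.1 (D p.2) s}ᶜ, ?_, ?_, ?_⟩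
  · rw [DenseRange, ← hD]; exact hA3
  · exact IsGδ.iInter_of_isOpen fun p => (hc p.1 (D p.2)).isOpen_compl
  · refine dense_iInter_of_isOpen (fun p => (hc p.1 (D p.2)).isOpen_compl) fun p => ?_
    rw [← interior_eq_empty_iff_dense_compl]
    have h1 : D p.2 ∉ N := by
      apply hA1
      rw [hD]
      exact mem_range_self _
    by_contra h2
    exact h1 ⟨p.1, nonempty_iff_ne_empty.2 h2⟩
  · intro s hs i j hR
    have := mem_iInter.1 hs (i, j)
    exact this hR

end Pool.Agent.H282.CRtopo
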