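import Pool.Agent.H857.EF.Core

/-!
The statement S20a of project ExoticFourfolds (helper857).
-/

set_option autoImplicit false

namespace Pool.Agent.H282.EFS

open Module Polynomial Pool.Agent.W521.Descent Pool.Agent.W521.Density Pool.Agent.W521.Count
  Pool.Agent.X297.UB Pool.Agent.H857.PB Pool.Agent.H857.PA Pool.Agent.H857.HK Pool.Agent.H857.EF
  Pool.Agent.W521.Frob

theorem s20a : S20a := by
  intro q A n t e _ hA hn
  apply Polynomial.eq_of_infinite_eval_eq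
  refine Set.Infinite.mono (s := {z : ℂ | z ≠ 0}) ?_
    (Set.finite_singleton (0 : ℂ)).infinite_compl
  intro z hz
  rw [Set.mem_ofPred_eq] at hz ⊢
  have h1 : z ^ 2 + q = (z + q / z) * z := by field_simp
  have h2 := aeval_weil q (mkPoly 4 (Pool.Agent.H857.EF.cf q A n t)) z (z + q / z) h1
  rw [mkPoly_natDegree] at h2
  rw [eval_map, ← algebraMap_int_eq, ← aeval_def, wp, h2]
  set s := z + q / z with hs
  have h3 : z * s = z ^ 2 + q := by rw [h1]; ring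
  have h4 : aeval s (mkPoly 4 (Pool.Agent.H857.EF.cf q A n t)) = s ^ 4 +
      ((((t : ℂ) - 2 * q) ^ 2 + q * ((A : ℂ) ^ 2 - 4 * n)) + (-(A * ((t : ℂ) - 2 * q))) * s +
        (2 * ((t : ℂ) - 2 * q) + n) * s ^ 2 + (-(A : ℂ)) * s ^ 3) := by
    unfold mkPoly Pool.Agent.H857.EF.cf
    rw [Fin.sum_univ_four]
    have e2 : (aeval s) (2 : ℤ[X]) = 2 := map_ofNat (aeval s) 2
    have e4 : (aeval s) (4 : ℤ[X]) = 4 := map_ofNat (aeval s) 4
    simp [e2, e4]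
  have h5 : eval z (half q e t * (half q e t).map (starRingEnd ℂ)) =
      (z ^ 4 - e * z ^ 3 + t * z ^ 2 - q * (starRingEnd ℂ) e * z + (q : ℂ) ^ 2) *
      (z ^ 4 - (starRingEnd ℂ) e * z ^ 3 + t * z ^ 2 - q * e * z + (q : ℂ) ^ 2) := by
    unfold half
    simp [Polynomial.map_sub, Polynomial.map_add, Polynomial.map_mul, Polynomial.map_pow]
  rw [h4, h5]
  have h6 : z ^ 4 * (s ^ 4 +
      ((((t : ℂ) - 2 * q) ^ 2 + q * ((A : ℂ) ^ 2 - 4 * n)) + (-(A * ((t : ℂ) - 2 * q))) * s +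
        (2 * ((t : ℂ) - 2 * q) + n) * s ^ 2 + (-(A : ℂ)) * s ^ 3)) =
      (z * s) ^ 4 + (((t : ℂ) - 2 * q) ^ 2 + q * ((A : ℂ) ^ 2 - 4 * n)) * z ^ 4 +
        (-(A * ((t : ℂ) - 2 * q))) * z ^ 3 * (z * s) +
        (2 * ((t : ℂ) - 2 * q) + n) * z ^ 2 * (z * s) ^ 2 + (-(A : ℂ)) * z * (z * s) ^ 3 := by
    ring
  rw [h6, h3, ← hA, ← hn]
  ring

end Pool.Agent.H282.EFS
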