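import Mathlib
import Pool.Agent.H979.GW.StmB

/-!
# Critically biased walks on trees: there are few upper-bad times (S_UPB)
-/

set_option autoImplicit false

open MeasureTheory ProbabilityTheory Filter Topology Set
open scoped ENNReal NNReal

namespace Pool.Agent.H282

open Pool.Agent.H979.GW
open Pool.Agent.H979.QIP (P)

theorem upb_avg {U : ℕ → ℝ} (hU : ∀ k, 0 ≤ U k)
    (h : Tendsto (fun k : ℕ => ((k : ℝ))⁻¹ * U k) atTop (𝓝 0)) {A : ℝ} (hA : 0 < A) :
    Tendsto (fun n : ℕ => (∑ k ∈ (Finset.range n).filter (fun k : ℕ => (k : ℝ) ≤ A * √n), U k) / n)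
      atTop (𝓝 0) := by
  rw [Metric.tendsto_atTop]
  intro e he
  have hAA : 0 < A * (A + 1) := by positivity
  set e1 : ℝ := e / (2 * (A * (A + 1))) with he1
  have he1p : 0 < e1 := by positivity
  obtain ⟨k₀, hk₀⟩ := (Metric.tendsto_atTop.1 h) e1 he1p
  set M : ℝ := ∑ k ∈ Finset.range (k₀ + 1), U k with hM
  have hM0 : 0 ≤ M := Finset.sum_nonneg fun k _ => hU k
  obtain ⟨N, hN⟩ := exists_nat_gt (2 * M / e)
  refine ⟨N + 1, fun n hn => ?_⟩
  have hn1 : (1 : ℝ) ≤ n := by
    have : 1 ≤ n := by omega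
    exact_mod_cast this
  have hn0 : (0 : ℝ) < n := by linarith
  have hsq : √(n : ℝ) * √(n : ℝ) = n := Real.mul_self_sqrt hn0.le
  have hs1 : 1 ≤ √(n : ℝ) := Real.one_le_sqrt.2 hn1
  set F := (Finset.range n).filter (fun k : ℕ => (k : ℝ) ≤ A * √n) with hF
  have hFc : ((F.card : ℕ) : ℝ) ≤ A * √n + 1 := by
    have h1 : F ⊆ Finset.range (⌊A * √(n : ℝ)⌋₊ + 1) := by
      intro k hk
      rw [hF, Finset.mem_filter] at hk
      rw [Finset.mem_range, Nat.lt_succ_iff]
      exact Nat.le_floor hk.2
    have h2 := Finset.card_le_card h1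
    rw [Finset.card_range] at h2
    have h3 : ((F.card : ℕ) : ℝ) ≤ ((⌊A * √(n : ℝ)⌋₊ + 1 : ℕ) : ℝ) := by exact_mod_cast h2
    push_cast at h3
    have h4 := Nat.floor_le (show 0 ≤ A * √(n : ℝ) by positivity)
    linarith
  have hterm : ∀ k ∈ F, U k ≤ (if k < k₀ + 1 then U k else 0) + e1 * (A * √n) := by
    intro k hk
    rw [hF, Finset.mem_filter] at hk
    have h0 : 0 ≤ e1 * (A * √(n : ℝ)) := by positivity
    split_ifs with hc
    · linarith
    · have hk1 : (0 : ℝ) < k := by
        have : 0 < k := by omega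
        exact_mod_cast this
      have h5 := hk₀ k (by omega)
      rw [Real.dist_eq, sub_zero, abs_of_nonneg (mul_nonneg (by positivity) (hU k))] at h5
      have h6 : U k < e1 * k := by
        have := mul_lt_mul_of_pos_left h5 hk1
        rw [← mul_assoc, mul_inv_cancel₀ hk1.ne', one_mul] at this
        linarith
      have h7 : e1 * k ≤ e1 * (A * √n) := mul_le_mul_of_nonneg_left hk.2 he1p.le
      linarith
  have hsum : ∑ k ∈ F, U k ≤ M + e1 * (A * (A + 1)) * n := by
    calc ∑ k ∈ F, U k ≤ ∑ k ∈ F, ((if k < k₀ + 1 then U k else 0) + e1 * (A * √n)) :=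
          Finset.sum_le_sum hterm
      _ = (∑ k ∈ F, (if k < k₀ + 1 then U k else 0)) + F.card * (e1 * (A * √n)) := by
          rw [Finset.sum_add_distrib, Finset.sum_const, nsmul_eq_mul]
      _ ≤ M + (A * √n + 1) * (e1 * (A * √n)) := by
          refine add_le_add ?_ (mul_le_mul_of_nonneg_right hFc (by positivity))
          rw [← Finset.sum_filter]
          refine Finset.sum_le_sum_of_subset_of_nonneg ?_ fun k _ _ => hU k
          intro k hk
          rw [Finset.mem_filter] at hk
          exact Finset.mem_range.2 hk.2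
      _ ≤ M + e1 * (A * (A + 1)) * n := by
          have h8 : (A * √(n : ℝ) + 1) ≤ (A + 1) * √n := by nlinarith
          have h9 : (A * √(n : ℝ) + 1) * (e1 * (A * √n)) ≤ ((A + 1) * √n) * (e1 * (A * √n)) :=
            mul_le_mul_of_nonneg_right h8 (by positivity)
          have h10 : ((A + 1) * √(n : ℝ)) * (e1 * (A * √n)) = e1 * (A * (A + 1)) * (√n * √n) := by
            ring
          rw [h10, hsq] at h9
          linarith
  have hpos : 0 ≤ ∑ k ∈ F, U k := Finset.sum_nonneg fun k _ => hU k
  rw [Real.dist_eq, sub_zero, abs_of_nonneg (div_nonneg hpos hn0.le), div_lt_iff₀ hn0]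
  have h11 : e1 * (A * (A + 1)) = e / 2 := by
    rw [he1]; field_simp
  rw [h11] at hsum
  have h12 : M < e / 2 * n := by
    have h13 : (N : ℝ) < n := by
      have : N < n := by omega
      exact_mod_cast this
    have h14 : 2 * M / e < n := hN.trans h13
    rw [div_lt_iff₀ he] at h14
    linarith
  linarith

theorem gw_upb (hOCC : S_OCC) : S_UPB := by
  classical
  intro Λ _ _ ρ hρf ch W cL σ2 η hR A δ ε hA hδ hε
  obtain ⟨C, hC0, hC⟩ := hOCC Λ ρ ch W cL σ2 η hR
  have hρ : 1 < ρ := hR.rho
  have hρ0 : 0 < ρ := by linarith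
  have hcard : (ch []).card ≠ 0 := by
    intro h0
    have h1 := hR.W_rec [] trivial
    rw [Finset.card_eq_zero] at h0
    rw [h0, Finset.sum_empty] at h1
    have h2 := mul_pos hρ0 hR.W_root
    linarith
  set U : ℕ → ℝ := fun k => ∑ v ∈ Lev ch k, (ρ⁻¹) ^ k * (ρ + (ch v).card) *
    max 0 (Sf W v - η * k) with hUdef
  have hU : ∀ k, 0 ≤ U k := fun k => Finset.sum_nonneg fun v _ =>
    mul_nonneg (by positivity) (le_max_left _ _)
  have havg := upb_avg hU hR.upp hA
  -- the bound for each `n`
  have hbound : ∀ n : ℕ, 1 ≤ n → P (stp ρ ch) [] {w | (∀ s ≤ n, ((w s).length : ℝ) ≤ A * √n) ∧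
      δ * n < (((Finset.range n).filter
        (fun s => ε * √n < Sf W (w s) - η * (w s).length)).card : ℝ)} ≤
      ENNReal.ofReal (C / (ε * δ) *
        ((∑ k ∈ (Finset.range n).filter (fun k : ℕ => (k : ℝ) ≤ A * √n), U k) / n)) := by
    intro n hn
    have hn1 : (1 : ℝ) ≤ n := by exact_mod_cast hn
    have hn0 : (0 : ℝ) < n := by linarith
    have hsp : 0 < √(n : ℝ) := Real.sqrt_pos.2 hn0
    set f : List Λ → ℝ := fun v => if (v.length : ℝ) ≤ A * √n ∧
      ε * √n < Sf W v - η * v.length then 1 else 0 with hf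
    have hf0 : ∀ v, 0 ≤ f v := fun v => by
      simp only [hf]; split_ifs <;> norm_num
    have hmeas : ∀ s : ℕ, Measurable (fun w : ℕ → List Λ => ENNReal.ofReal (f (w s))) := fun s =>
      (measurable_from_top (f := fun v : List Λ => ENNReal.ofReal (f v))).comp
        (measurable_pi_apply s)
    have hsub : {w : ℕ → List Λ | (∀ s ≤ n, ((w s).length : ℝ) ≤ A * √n) ∧
        δ * n < (((Finset.range n).filter
          (fun s => ε * √n < Sf W (w s) - η * (w s).length)).card : ℝ)} ⊆
        {w | ENNReal.ofReal (δ * n) ≤ ∑ s ∈ Finset.range n, ENNReal.ofReal (f (w s))} := by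
      rintro w ⟨h1, h2⟩
      simp only [mem_ofPred_eq]
      rw [← ENNReal.ofReal_sum_of_nonneg fun s _ => hf0 _]
      refine ENNReal.ofReal_le_ofReal ?_
      have h3 : ∑ s ∈ Finset.range n, f (w s) = (((Finset.range n).filter
          (fun s => ε * √n < Sf W (w s) - η * (w s).length)).card : ℝ) := by
        rw [Finset.card_filter]
        push_cast
        refine Finset.sum_congr rfl fun s hs => ?_
        have h4 := h1 s (Finset.mem_range.1 hs).le
        simp only [hf]
        by_cases h5 : ε * √(n : ℝ) < Sf W (w s) - η * (w s).length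
        · rw [if_pos ⟨h4, h5⟩, if_pos h5]
        · rw [if_neg fun h => h5 h.2, if_neg h5]
      rw [h3]
      exact h2.le
    have hmark : P (stp ρ ch) [] {w | ENNReal.ofReal (δ * n) ≤
        ∑ s ∈ Finset.range n, ENNReal.ofReal (f (w s))} ≤
        (∫⁻ w, ∑ s ∈ Finset.range n, ENNReal.ofReal (f (w s)) ∂(P (stp ρ ch) [])) /
          ENNReal.ofReal (δ * n) := by
      refine meas_ge_le_lintegral_div ?_ ?_ ENNReal.ofReal_ne_top
      · exact (Finset.measurable_fun_sum _ fun s _ => hmeas s).aemeasurable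
      · rw [Ne, ENNReal.ofReal_eq_zero, not_le]
        positivity
    have hint : ∫⁻ w, ∑ s ∈ Finset.range n, ENNReal.ofReal (f (w s)) ∂(P (stp ρ ch) []) =
        ENNReal.ofReal (∑ s ∈ Finset.range n, (Pop ρ ch)^[s] f []) := by
      rw [lintegral_finsetSum _ fun s _ => hmeas s,
        ENNReal.ofReal_sum_of_nonneg fun s _ => Pop_iter_nonneg hρ0 ch hf0 s []]
      exact Finset.sum_congr rfl fun s _ => coord hcard hf0 s []
    have hlev : ∑ k ∈ Finset.range n, ∑ v ∈ Lev ch k, (ρ⁻¹) ^ k * (ρ + (ch v).card) * f v ≤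
        (∑ k ∈ (Finset.range n).filter (fun k : ℕ => (k : ℝ) ≤ A * √n), U k) / (ε * √n) := by
      rw [Finset.sum_div, Finset.sum_filter]
      refine Finset.sum_le_sum fun k _ => ?_
      split_ifs with hk
      · simp only [hUdef]
        rw [Finset.sum_div]
        refine Finset.sum_le_sum fun v hv => ?_
        have hvl : v.length = k := (mem_Lev.1 hv).1
        rw [mul_div_assoc]
        refine mul_le_mul_of_nonneg_left ?_ (by positivity)
        simp only [hf]
        split_ifs with hc
        · rw [le_div_iff₀ (by positivity), one_mul]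
          have h6 := hc.2
          rw [hvl] at h6
          exact h6.le.trans (le_max_right _ _)
        · exact div_nonneg (le_max_left _ _) (by positivity)
      · refine le_of_eq (Finset.sum_eq_zero fun v hv => ?_)
        have hvl : v.length = k := (mem_Lev.1 hv).1
        simp only [hf]
        rw [if_neg, mul_zero]
        rintro ⟨h7, -⟩
        rw [hvl] at h7
        exact hk h7
    have hfin : (∑ s ∈ Finset.range n, (Pop ρ ch)^[s] f []) / (δ * n) ≤ C / (ε * δ) *
        ((∑ k ∈ (Finset.range n).filter (fun k : ℕ => (k : ℝ) ≤ A * √n), U k) / n) := by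
      have h8 := (hC f hf0).1 n hn
      have h9 : ∑ s ∈ Finset.range n, (Pop ρ ch)^[s] f [] ≤ C * √n *
          ((∑ k ∈ (Finset.range n).filter (fun k : ℕ => (k : ℝ) ≤ A * √n), U k) / (ε * √n)) :=
        h8.trans (mul_le_mul_of_nonneg_left hlev (by positivity))
      have h10 : C / (ε * δ) *
          ((∑ k ∈ (Finset.range n).filter (fun k : ℕ => (k : ℝ) ≤ A * √n), U k) / n) =
          (C * √n * ((∑ k ∈ (Finset.range n).filter (fun k : ℕ => (k : ℝ) ≤ A * √n), U k) /
            (ε * √n))) / (δ * n) := by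
        field_simp
      rw [h10]
      exact div_le_div_of_nonneg_right h9 (by positivity)
    calc _ ≤ _ := measure_mono hsub
      _ ≤ _ := hmark
      _ = ENNReal.ofReal ((∑ s ∈ Finset.range n, (Pop ρ ch)^[s] f []) / (δ * n)) := by
          rw [hint, ENNReal.ofReal_div_of_pos (by positivity)]
      _ ≤ _ := ENNReal.ofReal_le_ofReal hfin
  have hlim : Tendsto (fun n : ℕ => ENNReal.ofReal (C / (ε * δ) *
      ((∑ k ∈ (Finset.range n).filter (fun k : ℕ => (k : ℝ) ≤ A * √n), U k) / n))) atTop
      (𝓝 0) := by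
    have h1 := havg.const_mul (C / (ε * δ))
    rw [mul_zero] at h1
    have h2 := ENNReal.tendsto_ofReal h1
    rwa [ENNReal.ofReal_zero] at h2
  refine tendsto_of_tendsto_of_tendsto_of_le_of_le' tendsto_const_nhds hlim
    (Eventually.of_forall fun _ => zero_le) ?_
  filter_upwards [eventually_ge_atTop 1] with n hn
  exact hbound n hn

end Pool.Agent.H282
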