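import Pool.Agent.H282.PPDis
import Pool.Agent.H558.PP.TStm

set_option autoImplicit false

/-!
# T6: disagreement with a prescribed sequence at one scale
-/

namespace Pool.Agent.H282.PPT6

open PowerSeries Finset Pool.Agent.R836.PP Pool.Agent.H558.PP
open Pool.Agent.K7.H72.MT hiding W few dis DD dis_stable dis_vary DD_stable DD_sum DD_block few_bad
  dis_le DD_le base count
open Pool.Agent.H558.KK hiding dis DD dis_stable dis_vary DD_stable DD_sum DD_block few_bad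
  dis_le DD_le base count

theorem t6 (h5 : S_T5) : S_T6 := by
  classical
  intro R hR ε hε
  have h2R : (2 : ℝ) ≤ 2 ^ R := by
    calc (2 : ℝ) = 2 ^ 1 := by norm_num
      _ ≤ 2 ^ R := pow_le_pow_right₀ (by norm_num) hR
  obtain ⟨th, hth⟩ : ∃ th : ℝ, th = (2 ^ R - 1) / 2 ^ R := ⟨_, rfl⟩
  have hth0 : 0 < th := by
    rw [hth]
    exact div_pos (by linarith) (by positivity)
  have hth1 : th < 1 := by
    rw [hth, div_lt_one (by positivity)]
    linarith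
  obtain ⟨J, hJ⟩ := exists_pow_lt_of_lt_one (half_pos hε) hth1
  obtain ⟨δ0, V, hδ0, H⟩ := h5 (ε / 2) (half_pos hε)
  refine ⟨δ0 / 2 ^ (R + R * J + V), by positivity, fun V0 => ?_⟩
  obtain ⟨k0, hk0⟩ := H V0
  refine ⟨k0 + R * J + V, ?_⟩
  intro U w A hU hA K i hi hiK
  obtain ⟨k, hk⟩ : ∃ k, k + (R * J + V) = i := ⟨i - (R * J + V), by omega⟩
  have hkk0 : k0 ≤ k := by omega
  obtain ⟨Z, hZ⟩ : ∃ Z, k + (R * J + Z) = K := ⟨K - i + V, by omega⟩
  have hX : V + 2 ^ (R * J) ≤ 2 ^ (R * J + V) := by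
    have h1 : V + 1 ≤ 2 ^ V := Nat.lt_two_pow_self
    have h2 : 1 ≤ 2 ^ (R * J) := Nat.one_le_two_pow
    rw [pow_add]
    calc V + 2 ^ (R * J) ≤ 2 ^ (R * J) * V + 2 ^ (R * J) := by nlinarith
      _ = 2 ^ (R * J) * (V + 1) := by ring
      _ ≤ _ := Nat.mul_le_mul_left _ h1
  have hXi : 2 ^ k * 2 ^ (R * J + V) = 2 ^ i := by rw [← pow_add, hk]
  obtain ⟨B, hB⟩ : ∃ B : ℕ, B = ⌈δ0 * 2 ^ k⌉₊ := ⟨_, rfl⟩
  have hAD : AD R [((U, w, A) : El)] := by
    intro x hx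
    rw [List.mem_singleton] at hx
    rw [hx]
    exact hA
  have hcount := Pool.Agent.H282.PPDis.count (V := V) isP_P2 J Z (2 ^ (R * J + V)) B hX k
    [(U, w, A)] hAD
  rw [hXi, hZ] at hcount
  have hf := hk0 U hU k hkk0
  have hsub : (#{t ∈ range (2 ^ K) | (N1 P2 (2 ^ i) (U, w, A) t : ℝ) <
      δ0 / 2 ^ (R + R * J + V) * 2 ^ i} : ℝ) ≤
      (#{t ∈ range (2 ^ K) | 2 ^ R * NN P2 (2 ^ i) [(U, w, A)] t < B} : ℝ) := by
    have : #{t ∈ range (2 ^ K) | (N1 P2 (2 ^ i) (U, w, A) t : ℝ) <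
        δ0 / 2 ^ (R + R * J + V) * 2 ^ i} ≤
        #{t ∈ range (2 ^ K) | 2 ^ R * NN P2 (2 ^ i) [(U, w, A)] t < B} := by
      refine card_le_card fun t ht => ?_
      rw [mem_filter] at ht ⊢
      refine ⟨ht.1, ?_⟩
      rw [NN_single]
      have e1 : (2 : ℝ) ^ R * (δ0 / 2 ^ (R + R * J + V) * 2 ^ i) = δ0 * 2 ^ k := by
        have e2 : (2 : ℝ) ^ i = 2 ^ k * 2 ^ (R * J + V) := by rw [← pow_add, hk]
        have e3 : (2 : ℝ) ^ (R + R * J + V) = 2 ^ R * 2 ^ (R * J + V) := by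
          rw [← pow_add, add_assoc]
        rw [e2, e3]
        field_simp
      have h2 : (2 ^ R * N1 P2 (2 ^ i) (U, w, A) t : ℝ) < B := by
        calc (2 ^ R * N1 P2 (2 ^ i) (U, w, A) t : ℝ) <
            2 ^ R * (δ0 / 2 ^ (R + R * J + V) * 2 ^ i) := by
              have := ht.2
              gcongr
          _ = δ0 * 2 ^ k := e1
          _ ≤ B := by rw [hB]; exact Nat.le_ceil _
      exact_mod_cast h2
    exact_mod_cast this
  have hcount' : (#{t ∈ range (2 ^ K) | 2 ^ R * NN P2 (2 ^ i) [(U, w, A)] t < B} : ℝ) ≤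
      2 ^ (R * J + Z) * (#{t ∈ range (2 ^ k) | gv V (desc P2 k [(U, w, A)] t) < B} : ℝ) +
        2 ^ k * (2 ^ Z * (2 ^ R - 1) ^ J) := by
    have h1 : ((2 ^ R - 1 : ℕ) : ℝ) = 2 ^ R - 1 := by
      rw [Nat.cast_sub Nat.one_le_two_pow]
      norm_num
    rw [← h1]
    exact_mod_cast hcount
  have hf' : (#{t ∈ range (2 ^ k) | gv V (desc P2 k [(U, w, A)] t) < B} : ℝ) ≤
      ε / 2 * 2 ^ k := by
    refine le_trans ?_ hf
    have : #{t ∈ range (2 ^ k) | gv V (desc P2 k [(U, w, A)] t) < B} ≤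
        #{t ∈ range (2 ^ k) |
          (#{b ∈ range (2 ^ k) | Gv V (node P2 k b t U)} : ℝ) < δ0 * 2 ^ k} := by
      refine card_le_card fun t ht => ?_
      rw [mem_filter] at ht ⊢
      refine ⟨ht.1, ?_⟩
      have h1 := ht.2
      have e1 : gv V (desc P2 k [((U, w, A) : El)] t) = nv V k t U := by
        rw [gv_desc]
        simp
      rw [e1, hB, Nat.lt_ceil] at h1
      unfold nv at h1
      refine lt_of_le_of_lt (le_of_eq ?_) h1
      congr 2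
    exact_mod_cast this
  have hsecond : (2 : ℝ) ^ k * (2 ^ Z * (2 ^ R - 1) ^ J) = 2 ^ K * th ^ J := by
    rw [hth, div_pow, ← hZ, pow_add (2 : ℝ) k (R * J + Z), pow_add (2 : ℝ) (R * J) Z, ← pow_mul]
    have h1 : ∀ a b y z : ℝ, z ≠ 0 → a * (b * y) = a * (z * b) * (y / z) := by
      intro a b y z hz
      field_simp
    exact h1 _ _ _ _ (by positivity)
  have hfirst : (2 : ℝ) ^ (R * J + Z) * (ε / 2 * 2 ^ k) = 2 ^ K * (ε / 2) := by
    rw [← hZ, pow_add (2 : ℝ) k (R * J + Z)]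
    ring
  calc (#{t ∈ range (2 ^ K) | (N1 P2 (2 ^ i) (U, w, A) t : ℝ) <
      δ0 / 2 ^ (R + R * J + V) * 2 ^ i} : ℝ) ≤
      2 ^ (R * J + Z) * (#{t ∈ range (2 ^ k) | gv V (desc P2 k [(U, w, A)] t) < B} : ℝ) +
        2 ^ k * (2 ^ Z * (2 ^ R - 1) ^ J) := hsub.trans hcount'
    _ ≤ 2 ^ (R * J + Z) * (ε / 2 * 2 ^ k) + 2 ^ k * (2 ^ Z * (2 ^ R - 1) ^ J) := by
        gcongr
    _ = 2 ^ K * (ε / 2) + 2 ^ K * th ^ J := by rw [hfirst, hsecond]
    _ ≤ 2 ^ K * (ε / 2) + 2 ^ K * (ε / 2) := by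
        have := hJ.le
        gcongr
    _ = ε * 2 ^ K := by ring

end Pool.Agent.H282.PPT6
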