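import Mathlib
import Pool.Agent.H576.RD.Stm

/-!
# The icosahedral case of the regularity radius of Delone sets in 3-space (for helper576)
-/

set_option autoImplicit false

open Real Pool.Agent.H576.RD

namespace Pool.Agent.H282

theorem rd_c60 (h1 : S_T860) (h2 : S_T9) : S_C60 := by
  intro X s L x hx hs hL hsL hL2 hfin hirr hneg hcard
  obtain ⟨p, hp, ⟨h, hh, hhp⟩, ro, hro, hro1, hro2⟩ := h1 _ hfin hirr hneg hcard
  obtain ⟨b, hb, hbL, hbz⟩ := hL x hx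
  obtain ⟨y, hy, hys⟩ := hs.att x hx
  have hs0 := hs.pos
  have hL0 : 0 < L := hs0.trans hsL
  have hs2 : s ≤ 2 := hsL.le.trans hL2
  obtain ⟨v, rfl⟩ : ∃ v : E, y = x + v := ⟨y - x, by abel⟩
  rw [add_sub_cancel_left] at hys
  -- the vector `w`
  obtain ⟨g, hg, hgv⟩ := (h2 _ hfin hirr (s⁻¹ • v) p
    (by rw [norm_smul, norm_inv, Real.norm_eq_abs, abs_of_pos hs0, hys, inv_mul_cancel₀ hs0.ne'])
    hp).2
  obtain ⟨w, hw⟩ : ∃ w : E, g w = v := ⟨(g⁻¹ : LI) v, LinearIsometryEquiv.apply_symm_apply g v⟩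
  have hws : ‖w‖ = s := by rw [← hys, ← hw, LinearIsometryEquiv.norm_map]
  have hxw : x + w ∈ X := by
    rw [(mem_Aut.1 hg) w (hws.le.trans hs2), hw]
    exact hy
  have hwp : s ^ 2 ≤ 3 * (inner ℝ w p) ^ 2 := by
    rw [← hw, real_inner_smul_left, LinearIsometryEquiv.inner_map_map, mul_pow] at hgv
    have h3 : s ^ 2 * (s⁻¹ ^ 2 * (inner ℝ w p) ^ 2) = (inner ℝ w p) ^ 2 := by
      rw [← mul_assoc, ← mul_pow, mul_inv_cancel₀ hs0.ne', one_pow, one_mul]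
    have h4 := mul_le_mul_of_nonneg_left hgv (sq_nonneg s)
    rw [h3] at h4
    linarith
  have hrow : x + ro w ∈ X := by
    rw [← (mem_Aut.1 hro) w (hws.le.trans hs2)]
    exact hxw
  have hrw : ro w = w := by
    by_contra hne
    have h3 := hs.le (x + w) hxw (x + ro w) hrow (fun h => hne (add_left_cancel h).symm)
    rw [add_sub_add_left_eq_sub] at h3
    have h4 := hro1 w
    rw [hws] at h4
    have h5 : s ^ 2 ≤ ‖ro w - w‖ ^ 2 := pow_le_pow_left₀ hs0.le h3 2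
    nlinarith [sq_pos_of_pos hs0]
  obtain ⟨t, ht⟩ := hro2 w hrw
  have hhw : h w = -w := by rw [ht, map_smul, hhp, smul_neg]
  have hxnw : x + -w ∈ X := by
    rw [← hhw, ← (mem_Aut.1 hh) w (hws.le.trans hs2)]
    exact hxw
  -- the bound from the lens partner
  have hlens : ∀ u : E, ‖u‖ = s → x + u ∈ X → 2 * inner ℝ (b - x) u ≤ s ^ 2 := by
    intro u hu hxu
    have h3 := hbz (x + u) hxu (by rw [add_sub_cancel_left, hu]; exact hsL)
    have h4 : ‖x + u - b‖ ^ 2 = ‖u‖ ^ 2 - 2 * inner ℝ u (b - x) + ‖b - x‖ ^ 2 := by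
      rw [← norm_sub_sq_real]
      congr 2
      abel
    rw [hu, hbL, real_inner_comm] at h4
    have h5 : L ^ 2 ≤ ‖x + u - b‖ ^ 2 := pow_le_pow_left₀ hL0.le h3 2
    linarith
  have key : ∀ g ∈ Aut X x 2, |2 * inner ℝ (b - x) (g w)| ≤ s ^ 2 := by
    intro g hg
    rw [abs_le]
    constructor
    · have h3 := hlens (g (-w)) (by rw [LinearIsometryEquiv.norm_map, norm_neg, hws])
        (((mem_Aut.1 hg) (-w) (by rw [norm_neg, hws]; exact hs2)).1 hxnw)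
      rw [map_neg, inner_neg_right] at h3
      linarith
    · exact hlens (g w) (by rw [LinearIsometryEquiv.norm_map, hws])
        (((mem_Aut.1 hg) w (hws.le.trans hs2)).1 hxw)
  obtain ⟨k, hk, h3⟩ := (h2 _ hfin hirr (L⁻¹ • (b - x)) (s⁻¹ • w)
    (by rw [norm_smul, norm_inv, Real.norm_eq_abs, abs_of_pos hL0, hbL, inv_mul_cancel₀ hL0.ne'])
    (by rw [norm_smul, norm_inv, Real.norm_eq_abs, abs_of_pos hs0, hws,
      inv_mul_cancel₀ hs0.ne'])).2
  rw [map_smul, real_inner_smul_left, real_inner_smul_right] at h3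
  have h4 := key k hk
  have h5 : (2 * inner ℝ (b - x) (k w)) ^ 2 ≤ (s ^ 2) ^ 2 := by
    rw [← sq_abs (2 * inner ℝ (b - x) (k w))]
    exact pow_le_pow_left₀ (abs_nonneg _) h4 2
  have h6 : L ^ 2 * s ^ 2 * (L⁻¹ * (s⁻¹ * inner ℝ (b - x) (k w))) ^ 2 =
      (inner ℝ (b - x) (k w)) ^ 2 := by
    have e1 : L * L⁻¹ = 1 := mul_inv_cancel₀ hL0.ne'
    have e2 : s * s⁻¹ = 1 := mul_inv_cancel₀ hs0.ne'
    calc L ^ 2 * s ^ 2 * (L⁻¹ * (s⁻¹ * inner ℝ (b - x) (k w))) ^ 2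
        = (L * L⁻¹) ^ 2 * (s * s⁻¹) ^ 2 * (inner ℝ (b - x) (k w)) ^ 2 := by ring
      _ = _ := by rw [e1, e2]; ring
  have h7 := mul_le_mul_of_nonneg_left h3 (by positivity : 0 ≤ L ^ 2 * s ^ 2)
  rw [h6] at h7
  have h8 : s ^ 2 < L ^ 2 := pow_lt_pow_left₀ hsL hs0.le two_ne_zero
  have h9 : 0 < s ^ 2 := by positivity
  nlinarith [mul_lt_mul_of_pos_right h8 h9]

end Pool.Agent.H282
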