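import Pool.Agent.H770.GS.TF

/-!
# TF9: the far tail
-/

set_option autoImplicit false

open MeasureTheory Set intervalIntegral Filter Topology

namespace Pool.Agent.H282.TF9

open Pool.Agent.H770.GS

theorem sinc_le {x : ℝ} (hx : 0 < x) : |Real.sinc x| ≤ 1 / x := by
  rw [Real.sinc_of_ne_zero hx.ne', abs_div, abs_of_pos hx]
  exact div_le_div_of_nonneg_right (Real.abs_sin_le_one x) hx.le

theorem tf9 : S_TF9 := by
  intro h2 h3 ε b k hε hb hk
  obtain ⟨hz, -, hf, -, hck, -, he⟩ := h2 ε hε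
  obtain ⟨hI, hK⟩ := h3 h2 ε b k hε hb hk
  have h125 : (0 : ℝ) < 12 / 5 / b := by positivity
  have hIm : IntegrableOn (II ε k b) (Ioi (12 / 5 / b)) :=
    hI.mono_set (Ioi_subset_Ioi h125.le)
  obtain ⟨g, hg⟩ : ∃ g : ℝ → ℝ, g = fun x => |cf ε x| ^ (k - 1) / x ^ 2 := ⟨_, rfl⟩
  have hba : b * (12 / 5 / b) = 12 / 5 := by field_simp
  have hgi : IntegrableOn g (Ioi (12 / 5)) := by rw [hg]; exact hK (k - 1)
  have hgb : IntegrableOn (fun x => g (b * x)) (Ioi (12 / 5 / b)) := by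
    rw [integrableOn_Ioi_comp_mul_left_iff g _ hb, hba]
    exact hgi
  have hpt : ∀ τ ∈ Ioi (12 / 5 / b), |II ε k b τ| ≤
      2 * ε / zt ε * 1.07 * (1 + 1 / b) * (b * g (b * τ)) := by
    intro τ hτ
    have hτ0 : 0 < τ := h125.trans hτ
    have hbτ : 0 < b * τ := by positivity
    have e1 := hf τ hτ0
    have e2 := sinc_le hτ0
    have e3 := sinc_le hbτ
    have e4 := hck τ hτ0
    have e5 := hck (b * τ) hbτ
    unfold II
    rw [he b τ, abs_mul, abs_mul, abs_mul, abs_mul, abs_pow, abs_pow, abs_of_pos hτ0,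
      abs_of_pos (by positivity : 0 < 2 * ε / zt ε)]
    have e6 : |ck ε τ * Real.sinc (b * τ) - ck ε (b * τ) * Real.sinc τ| ≤
        1.07 * zt ε / τ ^ 2 * (1 / (b * τ)) + 1.07 * zt ε / (b * τ) ^ 2 * (1 / τ) := by
      refine (abs_sub _ _).trans ?_
      rw [abs_mul, abs_mul]
      exact add_le_add (mul_le_mul e4 e3 (abs_nonneg _) (by positivity))
        (mul_le_mul e5 e2 (abs_nonneg _) (by positivity))
    have e7 : τ ^ 2 * |cf ε τ| ≤ τ ^ 2 * (1 / (zt ε * τ)) :=
      mul_le_mul_of_nonneg_left e1 (by positivity)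
    calc τ ^ 2 * |cf ε τ| * |cf ε (b * τ)| ^ (k - 1) *
          (2 * ε / zt ε * |ck ε τ * Real.sinc (b * τ) - ck ε (b * τ) * Real.sinc τ|)
        ≤ τ ^ 2 * (1 / (zt ε * τ)) * |cf ε (b * τ)| ^ (k - 1) *
          (2 * ε / zt ε * (1.07 * zt ε / τ ^ 2 * (1 / (b * τ)) +
            1.07 * zt ε / (b * τ) ^ 2 * (1 / τ))) := by
          refine mul_le_mul (mul_le_mul_of_nonneg_right e7 (by positivity))
            (mul_le_mul_of_nonneg_left e6 (by positivity)) (by positivity) (by positivity)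
      _ = 2 * ε / zt ε * 1.07 * (1 + 1 / b) * (b * g (b * τ)) := by
          rw [hg]
          field_simp
  calc ∫ τ in Ioi (12 / 5 / b), |II ε k b τ|
      ≤ ∫ τ in Ioi (12 / 5 / b), 2 * ε / zt ε * 1.07 * (1 + 1 / b) * (b * g (b * τ)) :=
        setIntegral_mono_on hIm.abs ((hgb.const_mul b).const_mul _) measurableSet_Ioi hpt
    _ = 2 * ε / zt ε * 1.07 * (1 + 1 / b) * KK3 ε (k - 1) := by
        rw [MeasureTheory.integral_const_mul, MeasureTheory.integral_const_mul,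
          integral_comp_mul_left_Ioi g _ hb, hba, smul_eq_mul, ← mul_assoc b,
          mul_inv_cancel₀ hb.ne', one_mul, hg]
        rfl

end Pool.Agent.H282.TF9
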