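import Pool.Agent.H316.TF.Stm2

/-!
Lifting of cycles with divisible coefficients (task TF-lift of project TF, helper316).
-/

set_option autoImplicit false

namespace Pool.Agent.H316.TF

open Finsupp

theorem t_lift (_h_map : S_map) (h_LD : S_LD) (h_Lam : S_Lam) (h_sch : S_sch)
    (h_copies : S_copies) (h_rel : S_rel) (h_kill : S_kill) : S_lift := by
  intro I Γ B _ _ π y D hD hπ n hn A _ hA m H c hc
  have hc' : (pt Γ).bd A (m + 1) c = 0 := hc
  have hz : (cop I (rt π)).IsC (LD D A (m + 1) c) := by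
    show (cop I (rt π)).bd A m (LD D A (m + 1) c) = 0
    rw [h_LD (I × B) Γ (cop I (rt π)) D hD.crossed A m c, hc', map_zero, neg_zero]
  obtain ⟨V, η1, h1⟩ := h_copies I Γ B π A (m + 1) H _ hz
  have hL : (rt π).bd A (m + 1) (Lam Γ B A (m + 2) c) =
      Xm (fun i => π (y i)) Γ A (m + 1) (LD D A (m + 1) c) := by
    rw [h_Lam Γ B π A (m + 1) c, hc', map_zero, zero_add, Xm_LD π hD]
  have hV : comb A (cmb H.w) V = LD D A (m + 1) c - (cop I (rt π)).bd A (m + 1) η1 := by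
    rw [h1]
    abel
  have hB : (rt π).IsB (Xm (fun i => π (y i)) Γ A (m + 1) (comb A (cmb H.w) V)) := by
    refine ⟨Lam Γ B A (m + 2) c - Xm (fun i => π (y i)) Γ A (m + 2) η1, ?_⟩
    rw [map_sub, hL, Xm_bd π _h_map, hV, map_sub]
  have hrel := h_rel I Γ B π (fun i => π (y i)) A (m + 1) H V hB
  have hcl := @h_sch I Γ B H.T _ _ H.act π y D hD hπ n hn A _ hA V hrel
  obtain ⟨η2, h2⟩ := h_kill I Γ B π y D hD A (m + 1) H V hcl
  refine ⟨Lam Γ B A (m + 2) c - Xm (fun i => π (y i)) Γ A (m + 2) (η1 + η2), ?_, ?_⟩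
  · show (rt π).bd A (m + 1) (Lam Γ B A (m + 2) c -
      Xm (fun i => π (y i)) Γ A (m + 2) (η1 + η2)) = 0
    rw [map_sub, hL, Xm_bd π _h_map, ← map_sub, ← h2, hV, map_add]
    congr 1
    abel
  · rw [map_sub, eps_Lam, eps_Xm, sub_zero]

end Pool.Agent.H316.TF
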